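import Mathlib

set_option autoImplicit false

namespace Pool.Agent.Helper904.Homog

open FreeGroup (of)

/-- `T'` is the image of `T` under the partial map number `k` recorded in `E`. -/
def Rel (E : Finset (ℕ × ℕ × ℕ)) (k : ℕ) (T T' : Finset ℕ) : Prop :=
  (∀ x ∈ T, ∃ y ∈ T', (k, x, y) ∈ E) ∧ (∀ y ∈ T', ∃ x ∈ T, (k, x, y) ∈ E)

/-- a potential: an equivariant map from `t`-sets to the free group. -/
def IsPot (t : ℕ) (E : Finset (ℕ × ℕ × ℕ)) (Φ : Finset ℕ → FreeGroup ℕ) : Prop :=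
  ∀ k T T', T.card = t → Rel E k T T' → Φ T' = of k * Φ T

/-- finite systems of partial injections admitting a potential. -/
structure Cond (t : ℕ) where
  E : Finset (ℕ × ℕ × ℕ)
  func : ∀ k x y y', (k, x, y) ∈ E → (k, x, y') ∈ E → y = y'
  inj : ∀ k x x' y, (k, x, y) ∈ E → (k, x', y) ∈ E → x = x'
  pot : ∃ Φ, IsPot t E Φ

instance (t : ℕ) : Preorder (Cond t) where
  le P Q := P.E ⊆ Q.E
  le_refl P := Finset.Subset.refl _
  le_trans P Q R := Finset.Subset.trans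

lemma le_def {t : ℕ} {P Q : Cond t} : P ≤ Q ↔ P.E ⊆ Q.E := Iff.rfl

lemma exists_fresh (E : Finset (ℕ × ℕ × ℕ)) (x : ℕ) :
    ∃ y, y ≠ x ∧ (∀ k a b, (k, a, b) ∈ E → a ≠ y ∧ b ≠ y ∧ k ≠ y) := by
  classical
  obtain ⟨y, hy⟩ := Infinite.exists_notMem_finset
    ({x} ∪ E.image (fun p => p.1) ∪ E.image (fun p => p.2.1) ∪ E.image (fun p => p.2.2))
  simp only [Finset.mem_union, Finset.mem_singleton, Finset.mem_image, not_or, not_exists,
    not_and] at hy
  obtain ⟨⟨⟨h1, h2⟩, h3⟩, h4⟩ := hy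
  exact ⟨y, h1, fun k a b h => ⟨h3 _ h, h4 _ h, h2 _ h⟩⟩

lemma Rel.card {t : ℕ} (P : Cond t) {k : ℕ} {T T' : Finset ℕ} (h : Rel P.E k T T') :
    T'.card = T.card := by
  classical
  choose f hf using h.1
  have : T' = T.attach.image (fun x => f x.1 x.2) := by
    ext y
    simp only [Finset.mem_image, Finset.mem_attach, true_and, Subtype.exists]
    constructor
    · intro hy
      obtain ⟨x, hx, hxy⟩ := h.2 y hy
      exact ⟨x, hx, P.func _ _ _ _ (hf x hx).2 hxy⟩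
    · rintro ⟨x, hx, rfl⟩
      exact (hf x hx).1
  rw [this, Finset.card_image_of_injective, Finset.card_attach]
  intro x x' hxx'
  have h1 := (hf x.1 x.2).2
  have h2 := (hf x'.1 x'.2).2
  simp only at hxx'
  rw [hxx'] at h1
  exact Subtype.ext (P.inj _ _ _ _ h1 h2)

lemma Rel.unique_left {t : ℕ} (P : Cond t) {k : ℕ} {T₁ T₂ T' : Finset ℕ} (h₁ : Rel P.E k T₁ T')
    (h₂ : Rel P.E k T₂ T') : T₁ = T₂ := by
  ext x
  constructor
  · intro hx
    obtain ⟨y, hy, hxy⟩ := h₁.1 x hx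
    obtain ⟨x', hx', hxy'⟩ := h₂.2 y hy
    rw [P.inj _ _ _ _ hxy hxy']
    exact hx'
  · intro hx
    obtain ⟨y, hy, hxy⟩ := h₂.1 x hx
    obtain ⟨x', hx', hxy'⟩ := h₁.2 y hy
    rw [P.inj _ _ _ _ hxy hxy']
    exact hx'

lemma Rel.unique_right {t : ℕ} (P : Cond t) {k : ℕ} {T T₁ T₂ : Finset ℕ} (h₁ : Rel P.E k T T₁)
    (h₂ : Rel P.E k T T₂) : T₁ = T₂ := by
  ext y
  constructor
  · intro hy
    obtain ⟨x, hx, hxy⟩ := h₁.2 y hy
    obtain ⟨y', hy', hxy'⟩ := h₂.1 x hx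
    rw [P.func _ _ _ _ hxy hxy']
    exact hy'
  · intro hy
    obtain ⟨x, hx, hxy⟩ := h₂.2 y hy
    obtain ⟨y', hy', hxy'⟩ := h₁.1 x hx
    rw [P.func _ _ _ _ hxy hxy']
    exact hy'

/-- `x` can be put in the domain of the map number `k`. -/
lemma ext_dom {t : ℕ} (P : Cond t) (k x : ℕ) : ∃ Q : Cond t, P ≤ Q ∧ ∃ y, (k, x, y) ∈ Q.E := by
  classical
  by_cases hx : ∃ y, (k, x, y) ∈ P.E
  · exact ⟨P, le_refl _, hx⟩
  push Not at hx
  obtain ⟨y, hyx, hy⟩ := exists_fresh P.E x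
  set E' : Finset (ℕ × ℕ × ℕ) := insert (k, x, y) P.E with hE'
  have hmem : ∀ l a b, (l, a, b) ∈ E' ↔ (l = k ∧ a = x ∧ b = y) ∨ (l, a, b) ∈ P.E := by
    intro l a b
    rw [hE', Finset.mem_insert, Prod.mk.injEq, Prod.mk.injEq]
  have hfunc : ∀ l a b b', (l, a, b) ∈ E' → (l, a, b') ∈ E' → b = b' := by
    intro l a b b' h h'
    rw [hmem] at h h'
    rcases h with ⟨rfl, rfl, rfl⟩ | h <;> rcases h' with ⟨h1, h2, h3⟩ | h'
    · exact h3.symm
    · exact absurd h' (hx _)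
    · subst h1 h2; exact absurd h (hx _)
    · exact P.func _ _ _ _ h h'
  have hinj : ∀ l a a' b, (l, a, b) ∈ E' → (l, a', b) ∈ E' → a = a' := by
    intro l a a' b h h'
    rw [hmem] at h h'
    rcases h with ⟨rfl, rfl, rfl⟩ | h <;> rcases h' with ⟨h1, h2, h3⟩ | h'
    · exact h2.symm
    · exact absurd rfl (hy _ _ _ h').2.1
    · exact absurd h3 (hy _ _ _ h).2.1
    · exact P.inj _ _ _ _ h h'
  obtain ⟨Φ, hΦ⟩ := P.pot
  have hno : ∀ l T T', Rel E' l T T' → y ∉ T := by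
    intro l T T' h hyT
    obtain ⟨z, hz, hzE⟩ := h.1 y hyT
    rw [hmem] at hzE
    rcases hzE with ⟨-, h2, -⟩ | h2
    · exact hyx h2
    · exact (hy _ _ _ h2).1 rfl
  refine ⟨⟨E', hfunc, hinj, ?_⟩, Finset.subset_insert _ _, y, Finset.mem_insert_self _ _⟩
  refine ⟨fun T' => if h : y ∈ T' ∧ ∃ T, T.card = t ∧ Rel E' k T T' then of k * Φ h.2.choose
    else Φ T', ?_⟩
  intro l T T' hT hrel
  have hyT : y ∉ T := hno l T T' hrel
  have e1 : (if h : y ∈ T ∧ ∃ T₁, T₁.card = t ∧ Rel E' k T₁ T then of k * Φ h.2.choose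
    else Φ T) = Φ T := by
    rw [dif_neg]
    exact fun h => hyT h.1
  simp only [e1]
  by_cases hyT' : y ∈ T'
  · have hl : l = k := by
      obtain ⟨z, hz, hzE⟩ := hrel.2 y hyT'
      rw [hmem] at hzE
      rcases hzE with ⟨h1, -, -⟩ | h2
      · exact h1
      · exact absurd rfl (hy _ _ _ h2).2.1
    subst hl
    have h : y ∈ T' ∧ ∃ T, T.card = t ∧ Rel E' l T T' := ⟨hyT', T, hT, hrel⟩
    rw [dif_pos h]
    have h1 := h.2.choose_spec.2
    have h2 : h.2.choose = T := by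
      ext z
      constructor
      · intro hz
        obtain ⟨w, hw, hzw⟩ := h1.1 z hz
        obtain ⟨z', hz', hzw'⟩ := hrel.2 w hw
        rw [hinj _ _ _ _ hzw hzw']
        exact hz'
      · intro hz
        obtain ⟨w, hw, hzw⟩ := hrel.1 z hz
        obtain ⟨z', hz', hzw'⟩ := h1.2 w hw
        rw [hinj _ _ _ _ hzw hzw']
        exact hz'
    rw [h2]
  · rw [dif_neg (fun h => hyT' h.1)]
    apply hΦ l T T' hT
    constructor
    · intro a ha
      obtain ⟨b, hb, hab⟩ := hrel.1 a ha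
      refine ⟨b, hb, ?_⟩
      rw [hmem] at hab
      rcases hab with ⟨-, -, rfl⟩ | hab
      · exact absurd hb hyT'
      · exact hab
    · intro b hb
      obtain ⟨a, ha, hab⟩ := hrel.2 b hb
      refine ⟨a, ha, ?_⟩
      rw [hmem] at hab
      rcases hab with ⟨-, -, rfl⟩ | hab
      · exact absurd hb hyT'
      · exact hab

/-- `x` can be put in the range of the map number `k`. -/
lemma ext_ran {t : ℕ} (P : Cond t) (k x : ℕ) : ∃ Q : Cond t, P ≤ Q ∧ ∃ y, (k, y, x) ∈ Q.E := by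
  classical
  by_cases hx : ∃ y, (k, y, x) ∈ P.E
  · exact ⟨P, le_refl _, hx⟩
  push Not at hx
  obtain ⟨y, hyx, hy⟩ := exists_fresh P.E x
  set E' : Finset (ℕ × ℕ × ℕ) := insert (k, y, x) P.E with hE'
  have hmem : ∀ l a b, (l, a, b) ∈ E' ↔ (l = k ∧ a = y ∧ b = x) ∨ (l, a, b) ∈ P.E := by
    intro l a b
    rw [hE', Finset.mem_insert, Prod.mk.injEq, Prod.mk.injEq]
  have hfunc : ∀ l a b b', (l, a, b) ∈ E' → (l, a, b') ∈ E' → b = b' := by
    intro l a b b' h h'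
    rw [hmem] at h h'
    rcases h with ⟨rfl, rfl, rfl⟩ | h <;> rcases h' with ⟨h1, h2, h3⟩ | h'
    · exact h3.symm
    · exact absurd rfl (hy _ _ _ h').1
    · exact absurd h2 (hy _ _ _ h).1
    · exact P.func _ _ _ _ h h'
  have hinj : ∀ l a a' b, (l, a, b) ∈ E' → (l, a', b) ∈ E' → a = a' := by
    intro l a a' b h h'
    rw [hmem] at h h'
    rcases h with ⟨rfl, rfl, rfl⟩ | h <;> rcases h' with ⟨h1, h2, h3⟩ | h'
    · exact h2.symm
    · exact absurd h' (hx _)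
    · subst h1 h3; exact absurd h (hx _)
    · exact P.inj _ _ _ _ h h'
  obtain ⟨Φ, hΦ⟩ := P.pot
  have hno : ∀ l T T', Rel E' l T T' → y ∉ T' := by
    intro l T T' h hyT
    obtain ⟨z, hz, hzE⟩ := h.2 y hyT
    rw [hmem] at hzE
    rcases hzE with ⟨-, -, h2⟩ | h2
    · exact hyx h2
    · exact (hy _ _ _ h2).2.1 rfl
  refine ⟨⟨E', hfunc, hinj, ?_⟩, Finset.subset_insert _ _, y, Finset.mem_insert_self _ _⟩
  refine ⟨fun T => if h : y ∈ T ∧ ∃ T', Rel E' k T T' then (of k)⁻¹ * Φ h.2.choose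
    else Φ T, ?_⟩
  intro l T T' hT hrel
  have hyT' : y ∉ T' := hno l T T' hrel
  have e1 : (if h : y ∈ T' ∧ ∃ T₁, Rel E' k T' T₁ then (of k)⁻¹ * Φ h.2.choose
    else Φ T') = Φ T' := by
    rw [dif_neg]
    exact fun h => hyT' h.1
  simp only [e1]
  by_cases hyT : y ∈ T
  · have hl : l = k := by
      obtain ⟨z, hz, hzE⟩ := hrel.1 y hyT
      rw [hmem] at hzE
      rcases hzE with ⟨h1, -, -⟩ | h2
      · exact h1
      · exact absurd rfl (hy _ _ _ h2).1
    subst hl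
    have h : y ∈ T ∧ ∃ T', Rel E' l T T' := ⟨hyT, T', hrel⟩
    rw [dif_pos h]
    have h1 := h.2.choose_spec
    have h2 : h.2.choose = T' := by
      ext z
      constructor
      · intro hz
        obtain ⟨w, hw, hzw⟩ := h1.2 z hz
        obtain ⟨z', hz', hzw'⟩ := hrel.1 w hw
        rw [hfunc _ _ _ _ hzw hzw']
        exact hz'
      · intro hz
        obtain ⟨w, hw, hzw⟩ := hrel.2 z hz
        obtain ⟨z', hz', hzw'⟩ := h1.1 w hw
        rw [hfunc _ _ _ _ hzw hzw']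
        exact hz'
    rw [h2, mul_inv_cancel_left]
  · rw [dif_neg (fun h => hyT h.1)]
    apply hΦ l T T' hT
    constructor
    · intro a ha
      obtain ⟨b, hb, hab⟩ := hrel.1 a ha
      refine ⟨b, hb, ?_⟩
      rw [hmem] at hab
      rcases hab with ⟨-, rfl, -⟩ | hab
      · exact absurd ha hyT
      · exact hab
    · intro b hb
      obtain ⟨a, ha, hab⟩ := hrel.2 b hb
      refine ⟨a, ha, ?_⟩
      rw [hmem] at hab
      rcases hab with ⟨-, rfl, -⟩ | hab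
      · exact absurd ha hyT
      · exact hab

/-- one step between `t`-sets. -/
def Step (t : ℕ) (E : Finset (ℕ × ℕ × ℕ)) (T T' : Finset ℕ) : Prop :=
  T.card = t ∧ ∃ k, Rel E k T T'

/-- any two `t`-sets can be connected. -/
lemma ext_join {t : ℕ} (P : Cond t) (A B : Finset ℕ) (hA : A.card = t) (hB : B.card = t) :
    ∃ Q : Cond t, P ≤ Q ∧ Relation.EqvGen (Step t Q.E) A B := by
  classical
  by_cases hAB : Relation.EqvGen (Step t P.E) A B
  · exact ⟨P, le_refl _, hAB⟩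
  obtain ⟨m, -, hm⟩ := exists_fresh P.E 0
  have f : {x // x ∈ A} ≃ {x // x ∈ B} := Fintype.equivOfCardEq (by
    rw [Fintype.card_coe, Fintype.card_coe, hA, hB])
  set E' : Finset (ℕ × ℕ × ℕ) := P.E ∪ A.attach.image (fun a => (m, a.1, (f a).1)) with hE'
  have hmem : ∀ l a b, (l, a, b) ∈ E' ↔
      (l, a, b) ∈ P.E ∨ (l = m ∧ ∃ h : a ∈ A, (f ⟨a, h⟩ : ℕ) = b) := by
    intro l a b
    rw [hE', Finset.mem_union, Finset.mem_image]
    apply or_congr Iff.rfl
    constructor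
    · rintro ⟨⟨x, hx⟩, -, h⟩
      simp only [Prod.mk.injEq] at h
      obtain ⟨rfl, rfl, rfl⟩ := h
      exact ⟨rfl, hx, rfl⟩
    · rintro ⟨rfl, h, rfl⟩
      exact ⟨⟨a, h⟩, Finset.mem_attach _ _, rfl⟩
  have hfunc : ∀ l a b b', (l, a, b) ∈ E' → (l, a, b') ∈ E' → b = b' := by
    intro l a b b' h h'
    rw [hmem] at h h'
    rcases h with h | ⟨rfl, h1, h2⟩ <;> rcases h' with h' | ⟨h3, h4, h5⟩
    · exact P.func _ _ _ _ h h'
    · exact absurd h3 (hm _ _ _ h).2.2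
    · exact absurd rfl (hm _ _ _ h').2.2
    · rw [← h2, ← h5]
  have hinj : ∀ l a a' b, (l, a, b) ∈ E' → (l, a', b) ∈ E' → a = a' := by
    intro l a a' b h h'
    rw [hmem] at h h'
    rcases h with h | ⟨rfl, h1, h2⟩ <;> rcases h' with h' | ⟨h3, h4, h5⟩
    · exact P.inj _ _ _ _ h h'
    · exact absurd h3 (hm _ _ _ h).2.2
    · exact absurd rfl (hm _ _ _ h').2.2
    · have : f ⟨a, h1⟩ = f ⟨a', h4⟩ := Subtype.ext (h2.trans h5.symm)
      exact congrArg Subtype.val (f.injective this)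
  obtain ⟨Φ, hΦ⟩ := P.pot
  have hrelm : ∀ T T', T.card = t → Rel E' m T T' → T = A ∧ T' = B := by
    intro T T' hT h
    have h1 : T ⊆ A := by
      intro x hx
      obtain ⟨y, -, hxy⟩ := h.1 x hx
      rw [hmem] at hxy
      rcases hxy with hxy | ⟨-, h2, -⟩
      · exact absurd rfl (hm _ _ _ hxy).2.2
      · exact h2
    have h2 : T = A := Finset.eq_of_subset_of_card_le h1 (by rw [hA, hT])
    refine ⟨h2, ?_⟩
    ext y
    constructor
    · intro hy
      obtain ⟨x, -, hxy⟩ := h.2 y hy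
      rw [hmem] at hxy
      rcases hxy with hxy | ⟨-, h2, h3⟩
      · exact absurd rfl (hm _ _ _ hxy).2.2
      · rw [← h3]; exact (f _).2
    · intro hy
      obtain ⟨⟨x, hx⟩, hxy⟩ := f.surjective ⟨y, hy⟩
      obtain ⟨z, hz, hxz⟩ := h.1 x (by rw [h2]; exact hx)
      have h3 : (m, x, y) ∈ E' := by
        rw [hmem]
        exact Or.inr ⟨rfl, hx, by rw [hxy]⟩
      rw [hfunc _ _ _ _ h3 hxz]
      exact hz
  have hrelA : Rel E' m A B := by
    constructor
    · intro x hx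
      refine ⟨f ⟨x, hx⟩, (f ⟨x, hx⟩).2, ?_⟩
      rw [hmem]
      exact Or.inr ⟨rfl, hx, rfl⟩
    · intro y hy
      obtain ⟨⟨x, hx⟩, hxy⟩ := f.surjective ⟨y, hy⟩
      refine ⟨x, hx, ?_⟩
      rw [hmem]
      exact Or.inr ⟨rfl, hx, by rw [hxy]⟩
  have hrelo : ∀ l T T', l ≠ m → Rel E' l T T' → Rel P.E l T T' := by
    intro l T T' hl h
    constructor
    · intro x hx
      obtain ⟨y, hy, hxy⟩ := h.1 x hx
      rw [hmem] at hxy
      rcases hxy with hxy | ⟨h2, -⟩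
      · exact ⟨y, hy, hxy⟩
      · exact absurd h2 hl
    · intro x hx
      obtain ⟨y, hy, hxy⟩ := h.2 x hx
      rw [hmem] at hxy
      rcases hxy with hxy | ⟨h2, -⟩
      · exact ⟨y, hy, hxy⟩
      · exact absurd h2 hl
  refine ⟨⟨E', hfunc, hinj, ?_⟩, Finset.subset_union_left,
    Relation.EqvGen.rel _ _ ⟨hA, m, hrelA⟩⟩
  refine ⟨fun T => if Relation.EqvGen (Step t P.E) B T then Φ T * ((Φ B)⁻¹ * (of m * Φ A))
    else Φ T, ?_⟩
  intro l T T' hT hrel
  by_cases hl : l = m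
  · subst hl
    obtain ⟨rfl, rfl⟩ := hrelm T T' hT hrel
    have h1 : ¬ Relation.EqvGen (Step t P.E) T' T := fun h => hAB (Relation.EqvGen.symm _ _ h)
    have h2 : Relation.EqvGen (Step t P.E) T' T' := Relation.EqvGen.refl _
    simp only [h1, h2, if_true, if_false]
    rw [mul_inv_cancel_left]
  · have hrel' := hrelo l T T' hl hrel
    have hstep : Relation.EqvGen (Step t P.E) T T' := Relation.EqvGen.rel _ _ ⟨hT, l, hrel'⟩
    have h0 := hΦ l T T' hT hrel'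
    by_cases h1 : Relation.EqvGen (Step t P.E) B T
    · have h2 : Relation.EqvGen (Step t P.E) B T' := Relation.EqvGen.trans _ _ _ h1 hstep
      simp only [h1, h2, if_true]
      rw [h0, mul_assoc]
    · have h2 : ¬ Relation.EqvGen (Step t P.E) B T' := fun h =>
        h1 (Relation.EqvGen.trans _ _ _ h (Relation.EqvGen.symm _ _ hstep))
      simp only [h1, h2, if_false]
      exact h0

/-- the empty system. -/
def start (t : ℕ) (ht : 1 ≤ t) : Cond t where
  E := ∅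
  func := by intro k x y y' h; simp at h
  inj := by intro k x y y' h; simp at h
  pot := by
    refine ⟨fun _ => 1, ?_⟩
    intro k T T' hT h
    exfalso
    have : T.Nonempty := by
      rw [← Finset.card_pos, hT]; exact ht
    obtain ⟨x, hx⟩ := this
    obtain ⟨y, -, hy⟩ := h.1 x hx
    simp at hy

/-- the tasks. -/
def tasks (t : ℕ) : (ℕ × ℕ) ⊕ (ℕ × ℕ) ⊕ ({A : Finset ℕ // A.card = t} × {A : Finset ℕ // A.card = t})
    → Order.Cofinal (Cond t)
  | Sum.inl (k, x) => ⟨{Q | ∃ y, (k, x, y) ∈ Q.E}, fun P => by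
      obtain ⟨Q, h1, h2⟩ := ext_dom P k x
      exact ⟨Q, h2, h1⟩⟩
  | Sum.inr (Sum.inl (k, x)) => ⟨{Q | ∃ y, (k, y, x) ∈ Q.E}, fun P => by
      obtain ⟨Q, h1, h2⟩ := ext_ran P k x
      exact ⟨Q, h2, h1⟩⟩
  | Sum.inr (Sum.inr (A, B)) => ⟨{Q | Relation.EqvGen (Step t Q.E) A.1 B.1}, fun P => by
      obtain ⟨Q, h1, h2⟩ := ext_join P A.1 B.1 A.2 B.2
      exact ⟨Q, h2, h1⟩⟩

/-- For every `t ≥ 1` there is a sharply `t`-homogeneous group of permutations of `ℕ`. -/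
theorem exists_sharply_homogeneous (t : ℕ) (ht : 1 ≤ t) :
    ∃ G : Subgroup (Equiv.Perm ℕ), ∀ A B : Finset ℕ, A.card = t → B.card = t →
      ∃! g : G, A.map (Equiv.toEmbedding (g : Equiv.Perm ℕ)) = B := by
  classical
  set I := Order.idealOfCofinals (start t ht) (tasks t) with hI
  have hdir : ∀ P ∈ I, ∀ Q ∈ I, ∃ R ∈ I, P ≤ R ∧ Q ≤ R := I.directed
  have hstart : start t ht ∈ I := Order.mem_idealOfCofinals _ _
  have hdom : ∀ k x, ∃ y, ∃ P ∈ I, (k, x, y) ∈ P.E := by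
    intro k x
    obtain ⟨P, hP, hPI⟩ := Order.cofinal_meets_idealOfCofinals (start t ht) (tasks t)
      (Sum.inl (k, x))
    obtain ⟨y, hy⟩ := hP
    exact ⟨y, P, hPI, hy⟩
  have hran : ∀ k x, ∃ y, ∃ P ∈ I, (k, y, x) ∈ P.E := by
    intro k x
    obtain ⟨P, hP, hPI⟩ := Order.cofinal_meets_idealOfCofinals (start t ht) (tasks t)
      (Sum.inr (Sum.inl (k, x)))
    obtain ⟨y, hy⟩ := hP
    exact ⟨y, P, hPI, hy⟩
  have hjoin : ∀ A B : Finset ℕ, A.card = t → B.card = t →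
      ∃ P ∈ I, Relation.EqvGen (Step t P.E) A B := by
    intro A B hA hB
    obtain ⟨P, hP, hPI⟩ := Order.cofinal_meets_idealOfCofinals (start t ht) (tasks t)
      (Sum.inr (Sum.inr (⟨A, hA⟩, ⟨B, hB⟩)))
    exact ⟨P, hPI, hP⟩
  choose f hf using hdom
  have hfE : ∀ k x y, ∀ P ∈ I, (k, x, y) ∈ P.E → f k x = y := by
    intro k x y P hP h
    obtain ⟨Q, hQ, hQE⟩ := hf k x
    obtain ⟨R, -, hPR, hQR⟩ := hdir P hP Q hQ
    exact R.func _ _ _ _ (hQR hQE) (hPR h)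
  have hbij : ∀ k, Function.Bijective (f k) := by
    intro k
    constructor
    · intro x x' hxx'
      obtain ⟨P, hP, hPE⟩ := hf k x
      obtain ⟨Q, hQ, hQE⟩ := hf k x'
      obtain ⟨R, -, hPR, hQR⟩ := hdir P hP Q hQ
      rw [hxx'] at hPE
      exact R.inj _ _ _ _ (hPR hPE) (hQR hQE)
    · intro y
      obtain ⟨x, P, hP, hPE⟩ := hran k y
      exact ⟨x, hfE k x y P hP hPE⟩
  set s : ℕ → Equiv.Perm ℕ := fun k => Equiv.ofBijective (f k) (hbij k) with hs
  have hsf : ∀ k x, s k x = f k x := fun k x => rfl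
  set θ : FreeGroup ℕ →* Equiv.Perm ℕ := FreeGroup.lift s with hθ
  have hθof : ∀ k, θ (of k) = s k := fun k => FreeGroup.lift_apply_of
  -- finitely many pairs are seen at one stage
  have hfin : ∀ k (T : Finset ℕ), ∃ P ∈ I, ∀ x ∈ T, (k, x, f k x) ∈ P.E := by
    intro k T
    induction T using Finset.induction_on with
    | empty => exact ⟨start t ht, hstart, by simp⟩
    | insert a T ha ih =>
      obtain ⟨P, hP, hPE⟩ := ih
      obtain ⟨Q, hQ, hQE⟩ := hf k a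
      obtain ⟨R, hR, hPR, hQR⟩ := hdir P hP Q hQ
      refine ⟨R, hR, ?_⟩
      intro x hx
      rcases Finset.mem_insert.1 hx with rfl | hx
      · exact hQR hQE
      · exact hPR (hPE x hx)
  have hrel : ∀ k (T : Finset ℕ) (P : Cond t), (∀ x ∈ T, (k, x, f k x) ∈ P.E) →
      Rel P.E k T (T.map (s k).toEmbedding) := by
    intro k T P h
    constructor
    · intro x hx
      exact ⟨f k x, Finset.mem_map.2 ⟨x, hx, rfl⟩, h x hx⟩
    · intro y hy
      obtain ⟨x, hx, rfl⟩ := Finset.mem_map.1 hy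
      exact ⟨x, hx, h x hx⟩
  have hmul : ∀ (g h : Equiv.Perm ℕ) (T : Finset ℕ),
      T.map (g * h).toEmbedding = (T.map h.toEmbedding).map g.toEmbedding := by
    intro g h T
    rw [Finset.map_map]
    rfl
  have hone : ∀ T : Finset ℕ, T.map (1 : Equiv.Perm ℕ).toEmbedding = T := by
    intro T
    exact Finset.map_refl
  -- potentials follow the action of the free group
  have key : ∀ w : FreeGroup ℕ, ∀ T : Finset ℕ, T.card = t → ∃ P ∈ I, ∀ Q ∈ I, P ≤ Q →
      ∀ Φ, IsPot t Q.E Φ → Φ (T.map (θ w).toEmbedding) = w * Φ T := by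
    intro w
    induction w using FreeGroup.induction_on with
    | C1 =>
      intro T hT
      refine ⟨start t ht, hstart, fun Q _ _ Φ _ => ?_⟩
      rw [map_one, hone, one_mul]
    | of k =>
      intro T hT
      obtain ⟨P, hP, hPE⟩ := hfin k T
      refine ⟨P, hP, fun Q hQ hPQ Φ hΦ => ?_⟩
      rw [hθof]
      exact hΦ k T _ hT (hrel k T Q (fun x hx => hPQ (hPE x hx)))
    | inv_of k ih =>
      intro T hT
      set T' := T.map (θ (of k)⁻¹).toEmbedding with hT'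
      have hT'c : T'.card = t := by rw [hT', Finset.card_map, hT]
      obtain ⟨P, hP, hPE⟩ := hfin k T'
      refine ⟨P, hP, fun Q hQ hPQ Φ hΦ => ?_⟩
      have h1 := hΦ k T' _ hT'c (hrel k T' Q (fun x hx => hPQ (hPE x hx)))
      have h2 : T'.map (s k).toEmbedding = T := by
        rw [hT', ← hθof, ← hmul, ← map_mul, mul_inv_cancel, map_one, hone]
      rw [h2] at h1
      rw [h1, inv_mul_cancel_left]
    | mul x y ihx ihy =>
      intro T hT
      obtain ⟨P, hP, hP'⟩ := ihy T hT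
      obtain ⟨Q, hQ, hQ'⟩ := ihx (T.map (θ y).toEmbedding) (by rw [Finset.card_map, hT])
      obtain ⟨R, hR, hPR, hQR⟩ := hdir P hP Q hQ
      refine ⟨R, hR, fun U hU hRU Φ hΦ => ?_⟩
      rw [map_mul, hmul, hQ' U hU (le_trans hQR hRU) Φ hΦ, hP' U hU (le_trans hPR hRU) Φ hΦ,
        mul_assoc]
  -- free action
  have hfree : ∀ w : FreeGroup ℕ, ∀ T : Finset ℕ, T.card = t →
      T.map (θ w).toEmbedding = T → w = 1 := by
    intro w T hT h
    obtain ⟨P, hP, hP'⟩ := key w T hT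
    obtain ⟨Φ, hΦ⟩ := P.pot
    have h1 := hP' P hP (le_refl _) Φ hΦ
    rw [h] at h1
    exact (mul_eq_right.1 h1.symm)
  -- transitivity
  have htr : ∀ P ∈ I, ∀ A B, Relation.EqvGen (Step t P.E) A B →
      ∃ w : FreeGroup ℕ, A.map (θ w).toEmbedding = B := by
    intro P hP A B h
    induction h with
    | rel A B h =>
      obtain ⟨hA, k, hk⟩ := h
      refine ⟨of k, ?_⟩
      rw [hθof]
      have h1 : ∀ x ∈ A, (k, x, f k x) ∈ P.E := by
        intro x hx
        obtain ⟨y, hy, hxy⟩ := hk.1 x hx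
        rw [hfE k x y P hP hxy]
        exact hxy
      exact Rel.unique_right P (hrel k A P h1) hk
    | refl A =>
      exact ⟨1, by rw [map_one, hone]⟩
    | symm A B _ ih =>
      obtain ⟨w, hw⟩ := ih
      refine ⟨w⁻¹, ?_⟩
      rw [← hw, ← hmul, ← map_mul, inv_mul_cancel, map_one, hone]
    | trans A B C _ _ ih1 ih2 =>
      obtain ⟨w, hw⟩ := ih1
      obtain ⟨v, hv⟩ := ih2
      refine ⟨v * w, ?_⟩
      rw [map_mul, hmul, hw, hv]
  refine ⟨θ.range, fun A B hA hB => ?_⟩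
  obtain ⟨P, hP, hPAB⟩ := hjoin A B hA hB
  obtain ⟨w, hw⟩ := htr P hP A B hPAB
  refine ⟨⟨θ w, w, rfl⟩, hw, ?_⟩
  rintro ⟨_, v, rfl⟩ hv
  have hv' : A.map (θ v).toEmbedding = B := hv
  have h1 : A.map (θ (w⁻¹ * v)).toEmbedding = A := by
    rw [map_mul, hmul, hv', ← hw, ← hmul, ← map_mul, inv_mul_cancel, map_one, hone]
  have h2 := hfree _ A hA h1
  have h3 : v = w := by
    rw [inv_mul_eq_one] at h2
    exact h2.symm
  apply Subtype.ext
  show θ v = θ w
  rw [h3]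

end Pool.Agent.Helper904.Homog
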