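import Mathlib

set_option autoImplicit false

namespace Pool.Agent.Helper904.TwoTrans

/-! ### The affine group of a field, acting on the field -/

/-- affine maps `x ↦ a x + b`. -/
@[ext]
structure Aff (K : Type) [Field K] where
  a : Kˣ
  b : K

namespace Aff
variable {K : Type} [Field K]

instance : Mul (Aff K) := ⟨fun x y => ⟨x.a * y.a, (x.a : K) * y.b + x.b⟩⟩
instance : One (Aff K) := ⟨⟨1, 0⟩⟩
instance : Inv (Aff K) := ⟨fun x => ⟨x.a⁻¹, -((x.a⁻¹ : Kˣ) : K) * x.b⟩⟩

@[simp] lemma mul_a (x y : Aff K) : (x * y).a = x.a * y.a := rfl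
@[simp] lemma mul_b (x y : Aff K) : (x * y).b = (x.a : K) * y.b + x.b := rfl
@[simp] lemma one_a : (1 : Aff K).a = 1 := rfl
@[simp] lemma one_b : (1 : Aff K).b = 0 := rfl
@[simp] lemma inv_a (x : Aff K) : (x⁻¹).a = x.a⁻¹ := rfl
@[simp] lemma inv_b (x : Aff K) : (x⁻¹).b = -((x.a⁻¹ : Kˣ) : K) * x.b := rfl

instance : Group (Aff K) where
  mul_assoc x y z := by
    apply Aff.ext
    · simp [mul_assoc]
    · simp only [mul_a, mul_b, Units.val_mul]; ring
  one_mul x := by
    apply Aff.ext
    · simp
    · simp
  mul_one x := by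
    apply Aff.ext
    · simp
    · simp
  inv_mul_cancel x := by
    apply Aff.ext
    · simp
    · simp

instance : MulAction (Aff K) K where
  smul x y := (x.a : K) * y + x.b
  one_smul y := by
    show ((1 : Kˣ) : K) * y + 0 = y
    simp
  mul_smul x z y := by
    show ((x.a * z.a : Kˣ) : K) * y + ((x.a : K) * z.b + x.b) = (x.a : K) * ((z.a : K) * y + z.b) + x.b
    rw [Units.val_mul]; ring

lemma smul_def (x : Aff K) (y : K) : x • y = (x.a : K) * y + x.b := rfl

instance : FaithfulSMul (Aff K) K where
  eq_of_smul_eq_smul := by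
    intro x y h
    have h0 := h 0
    have h1 := h 1
    simp only [smul_def, mul_zero, zero_add, mul_one] at h0 h1
    rw [h0] at h1
    exact Aff.ext (Units.ext (add_right_cancel h1)) h0

/-- linear part. -/
def lin : Aff K →* Kˣ where
  toFun := Aff.a
  map_one' := rfl
  map_mul' _ _ := rfl

/-- translations. -/
def tr : Multiplicative K →* Aff K where
  toFun b := ⟨1, Multiplicative.toAdd b⟩
  map_one' := rfl
  map_mul' x y := by
    apply Aff.ext
    · simp
    · simp [add_comm]

instance : Group.IsSolvable (Aff K) := by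
  apply Group.isSolvable_of_ker_le_range (tr (K := K)) (lin (K := K))
  intro x hx
  refine ⟨Multiplicative.ofAdd x.b, ?_⟩
  apply Aff.ext
  · exact (MonoidHom.mem_ker.1 hx).symm
  · rfl

/-- two-transitivity. -/
lemma two_trans (x y x' y' : K) (h : x ≠ y) (h' : x' ≠ y') :
    ∃ g : Aff K, g • x = x' ∧ g • y = y' := by
  have h1 : x - y ≠ 0 := sub_ne_zero.2 h
  have h2 : x' - y' ≠ 0 := sub_ne_zero.2 h'
  refine ⟨⟨Units.mk0 ((x' - y') / (x - y)) (div_ne_zero h2 h1), x' - (x' - y') / (x - y) * x⟩,
    ?_, ?_⟩
  · rw [smul_def]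
    simp
  · rw [smul_def]
    simp only [Units.val_mk0]
    field_simp
    ring

end Aff

/-! ### Wreath products -/

section wreath
variable (A Q Y : Type) [Group A] [Group Q] [MulAction A Y]

/-- product action of the regular wreath product. -/
@[reducible] def wact : MulAction (RegularWreathProduct A Q) (Q → Y) where
  smul w u := fun x => w.left x • u (w.right⁻¹ * x)
  one_smul u := by
    funext x
    show (1 : A) • u ((1 : Q)⁻¹ * x) = u x
    rw [one_smul, inv_one, one_mul]
  mul_smul w v u := by
    funext x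
    show (w.left x * v.left (w.right⁻¹ * x)) • u ((w.right * v.right)⁻¹ * x) =
      w.left x • (v.left (w.right⁻¹ * x) • u (v.right⁻¹ * (w.right⁻¹ * x)))
    rw [mul_smul, mul_inv_rev, mul_assoc]

/-- evaluation at a point of the kernel. -/
def base : (Q → A) →* RegularWreathProduct A Q where
  toFun f := ⟨f, 1⟩
  map_one' := rfl
  map_mul' f g := by
    apply RegularWreathProduct.ext
    · funext x
      show f x * g x = f x * g ((1 : Q)⁻¹ * x)
      rw [inv_one, one_mul]
    · show (1 : Q) = 1 * 1
      rw [one_mul]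

instance pi_solv [Group.IsSolvable A] : Group.IsSolvable (Q → A) := by
  obtain ⟨n, hn⟩ := (inferInstance : Group.IsSolvable A)
  refine ⟨n, ?_⟩
  rw [eq_bot_iff]
  intro f hf
  rw [Subgroup.mem_bot]
  funext x
  have h1 := map_derivedSeries_le_derivedSeries (Pi.evalMonoidHom (fun _ : Q => A) x) n
  have h2 : f x ∈ derivedSeries A n := h1 ⟨f, hf, rfl⟩
  rw [hn, Subgroup.mem_bot] at h2
  exact h2

instance wreath_solv [Group.IsSolvable A] [Group.IsSolvable Q] : Group.IsSolvable (RegularWreathProduct A Q) := by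
  apply Group.isSolvable_of_ker_le_range (base A Q) (RegularWreathProduct.rightHom (D := A) (Q := Q))
  intro w hw
  refine ⟨w.left, ?_⟩
  apply RegularWreathProduct.ext
  · rfl
  · exact (MonoidHom.mem_ker.1 hw).symm

lemma wfaith [FaithfulSMul A Y] (hY : ∃ a b : Y, a ≠ b) :
    @FaithfulSMul (RegularWreathProduct A Q) (Q → Y) (wact A Q Y).toSMul := by
  let _ := wact A Q Y
  classical
  refine ⟨?_⟩
  intro w v h
  have h1 : ∀ u : Q → Y, ∀ x, w.left x • u (w.right⁻¹ * x) = v.left x • u (v.right⁻¹ * x) :=
    fun u x => congrFun (h u) x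
  have h2 : w.left = v.left := by
    funext x
    apply FaithfulSMul.eq_of_smul_eq_smul (α := Y)
    intro y
    exact h1 (fun _ => y) x
  have h3 : w.right = v.right := by
    obtain ⟨a, b, hab⟩ := hY
    by_contra hne
    have h4 := h1 (fun z => if z = w.right⁻¹ then a else b) 1
    rw [h2] at h4
    have h5 := smul_left_cancel _ h4
    have h6 : v.right⁻¹ ≠ w.right⁻¹ := fun h => hne (inv_injective h).symm
    simp only [mul_one, if_true, h6, if_false] at h5
    exact hab h5
  exact RegularWreathProduct.ext h2 h3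

end wreath

/-! ### Stages -/

/-- a field containing a copy of the set `X`. -/
abbrev KK (X : Type) : Type := FractionRing (MvPolynomial X ℚ)

/-- the copy of `X` in the field. -/
noncomputable def iota (X : Type) (x : X) : KK X :=
  algebraMap (MvPolynomial X ℚ) (KK X) (MvPolynomial.X x)

lemma iota_inj (X : Type) : Function.Injective (iota X) :=
  (IsFractionRing.injective (MvPolynomial X ℚ) (KK X)).comp
    (MvPolynomial.X_injective (R := ℚ) (σ := X))

/-- A solvable group acting faithfully on a set. -/
structure Stage : Type 1 where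
  G : Type
  X : Type
  grp : Group G
  act : MulAction G X
  solv : Group.IsSolvable G
  faith : FaithfulSMul G X

attribute [instance] Stage.grp Stage.act Stage.solv Stage.faith

/-- the infinite cyclic group. -/
abbrev ZZ : Type := Multiplicative ℤ

/-- the unrestricted wreath product with the infinite cyclic group. -/
abbrev GA (G : Type) [Group G] : Type := RegularWreathProduct G ZZ

/-- the diagonal embedding. -/
def diag (G : Type) [Group G] : G →* GA G :=
  (base G ZZ).comp (Pi.constMonoidHom ZZ G)

lemma diag_left (G : Type) [Group G] (g : G) (j : ZZ) : (diag G g).left j = g := rfl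
lemma diag_right (G : Type) [Group G] (g : G) : (diag G g).right = 1 := rfl

/-- next stage. -/
noncomputable def next (s : Stage) : Stage where
  G := RegularWreathProduct (Aff (KK (ZZ → s.X))) (GA s.G)
  X := GA s.G → KK (ZZ → s.X)
  grp := inferInstance
  act := wact (Aff (KK (ZZ → s.X))) (GA s.G) (KK (ZZ → s.X))
  solv := inferInstance
  faith := wfaith _ _ _ ⟨0, 1, zero_ne_one⟩

/-- the action of the wreath product on sequences. -/
def actA (s : Stage) (h : GA s.G) (u : ZZ → s.X) : ZZ → s.X := (wact s.G ZZ s.X).smul h u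

lemma actA_mul (s : Stage) (h k : GA s.G) (u : ZZ → s.X) :
    actA s (h * k) u = actA s h (actA s k u) := (wact s.G ZZ s.X).mul_smul h k u

lemma actA_one (s : Stage) (u : ZZ → s.X) :
    actA s 1 u = u := (wact s.G ZZ s.X).one_smul u

lemma actA_inj (s : Stage) (h : GA s.G) : Function.Injective (actA s h) := by
  intro u v huv
  have := congrArg (actA s h⁻¹) huv
  rw [← actA_mul, ← actA_mul, inv_mul_cancel, actA_one, actA_one] at this
  exact this

lemma actA_diag (s : Stage) (g : s.G) (x : s.X) :
    actA s (diag s.G g) (fun _ => x) = fun _ => g • x := rfl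

/-- embedding of the groups. -/
noncomputable def incG (s : Stage) : s.G →* (next s).G :=
  (RegularWreathProduct.inl (D := Aff (KK (ZZ → s.X))) (Q := GA s.G)).comp (diag s.G)

/-- embedding of the sets. -/
noncomputable def incX (s : Stage) (x : s.X) : (next s).X :=
  fun h => iota _ (actA s h⁻¹ (fun _ => x))

lemma incX_inj (s : Stage) : Function.Injective (incX s) := by
  intro x y hxy
  have h1 := congrFun hxy 1
  have h2 := actA_inj s _ (iota_inj _ h1)
  exact congrFun h2 1

lemma incX_ne (s : Stage) {x y : s.X} (hxy : x ≠ y) (h : GA s.G) : incX s x h ≠ incX s y h := by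
  intro h1
  have h2 := actA_inj s _ (iota_inj _ h1)
  exact hxy (congrFun h2 1)

lemma inc_smul (s : Stage) (g : s.G) (x : s.X) : incX s (g • x) = incG s g • incX s x := by
  funext h
  show iota _ (actA s h⁻¹ (fun _ => g • x)) =
    (1 : Aff (KK (ZZ → s.X))) • iota _ (actA s ((diag s.G g)⁻¹ * h)⁻¹ (fun _ => x))
  rw [one_smul, mul_inv_rev, inv_inv, actA_mul, actA_diag]

/-- fusion of pairs in the next stage. -/
lemma fuse (s : Stage) (x y x' y' : s.X) (h : x ≠ y) (h' : x' ≠ y') :
    ∃ g : (next s).G, g • incX s x = incX s x' ∧ g • incX s y = incX s y' := by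
  choose f hf using fun z : GA s.G =>
    Aff.two_trans (incX s x z) (incX s y z) (incX s x' z) (incX s y' z) (incX_ne s h z)
      (incX_ne s h' z)
  refine ⟨base _ _ f, ?_, ?_⟩
  · funext z
    show f z • incX s x ((1 : GA s.G)⁻¹ * z) = incX s x' z
    rw [inv_one, one_mul]
    exact (hf z).1
  · funext z
    show f z • incX s y ((1 : GA s.G)⁻¹ * z) = incX s y' z
    rw [inv_one, one_mul]
    exact (hf z).2

/-- the sequence of stages. -/
noncomputable def seq : ℕ → Stage
  | 0 => { G := Unit, X := Unit, grp := inferInstance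
           act := { smul := fun _ x => x, one_smul := fun _ => rfl, mul_smul := fun _ _ _ => rfl }
           solv := inferInstance
           faith := ⟨fun _ => rfl⟩ }
  | n + 1 => next (seq n)

/-- one step, for the groups. -/
noncomputable def sG (n : ℕ) : (seq n).G →* (seq (n + 1)).G := incG (seq n)

/-- one step, for the sets. -/
noncomputable def sX (n : ℕ) : (seq n).X ↪ (seq (n + 1)).X := ⟨incX (seq n), incX_inj (seq n)⟩

lemma s_smul (n : ℕ) (g : (seq n).G) (x : (seq n).X) : sX n (g • x) = sG n g • sX n x :=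
  inc_smul (seq n) g x

lemma s_fuse (n : ℕ) (x y x' y' : (seq n).X) (h : x ≠ y) (h' : x' ≠ y') :
    ∃ g : (seq (n + 1)).G, g • sX n x = sX n x' ∧ g • sX n y = sX n y' :=
  fuse (seq n) x y x' y' h h'

/-- transition maps for groups. -/
noncomputable def fG (i j : ℕ) (h : i ≤ j) : (seq i).G →* (seq j).G :=
  Nat.leRec (motive := fun m _ => (seq i).G →* (seq m).G) (MonoidHom.id _)
    (fun k _ f => (sG k).comp f) h

/-- transition maps for sets. -/
noncomputable def fX (i j : ℕ) (h : i ≤ j) : (seq i).X ↪ (seq j).X :=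
  Nat.leRec (motive := fun m _ => (seq i).X ↪ (seq m).X) (Function.Embedding.refl _)
    (fun k _ f => f.trans (sX k)) h

lemma fG_self (i : ℕ) (x : (seq i).G) : fG i i le_rfl x = x := by
  unfold fG; rw [Nat.leRec_self]; rfl

lemma fX_self (i : ℕ) (x : (seq i).X) : fX i i le_rfl x = x := by
  unfold fX; rw [Nat.leRec_self]; rfl

lemma fG_succ (i j : ℕ) (h : i ≤ j) (h' : i ≤ j + 1) (x : (seq i).G) :
    fG i (j + 1) h' x = sG j (fG i j h x) := by
  unfold fG; rw [Nat.leRec_succ _ _ h]; rfl

lemma fX_succ (i j : ℕ) (h : i ≤ j) (h' : i ≤ j + 1) (x : (seq i).X) :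
    fX i (j + 1) h' x = sX j (fX i j h x) := by
  unfold fX; rw [Nat.leRec_succ _ _ h]; rfl

instance dsG : DirectedSystem (fun n => (seq n).G) (fun i j h => fG i j h) where
  map_self i x := fG_self i x
  map_map k j i hij hjk x := by
    induction hjk with
    | refl => exact fG_self _ _
    | @step m hm ih =>
      rw [fG_succ j m hm, ih, fG_succ i m (hij.trans hm)]

instance dsX : DirectedSystem (fun n => (seq n).X) (fun i j h => fX i j h) where
  map_self i x := fX_self i x
  map_map k j i hij hjk x := by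
    induction hjk with
    | refl => exact fX_self _ _
    | @step m hm ih =>
      rw [fX_succ j m hm, ih, fX_succ i m (hij.trans hm)]

lemma f_smul (i j : ℕ) (h : i ≤ j) (g : (seq i).G) (x : (seq i).X) :
    fX i j h (g • x) = fG i j h g • fX i j h x := by
  induction h with
  | refl => rw [fX_self, fX_self, fG_self]
  | @step m hm ih =>
    rw [fX_succ i m hm, fX_succ i m hm, fG_succ i m hm, ih, s_smul]

/-- the limit group. -/
abbrev GG : Type := DirectLimit (fun n => (seq n).G) fG
/-- the limit set. -/
abbrev XX : Type := DirectLimit (fun n => (seq n).X) fX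

/-- stage `n` of the limit group. -/
noncomputable def toG (n : ℕ) (g : (seq n).G) : GG := ⟦⟨n, g⟩⟧
/-- stage `n` of the limit set. -/
noncomputable def toX (n : ℕ) (x : (seq n).X) : XX := ⟦⟨n, x⟩⟧

lemma toG_succ (n : ℕ) (g : (seq n).G) : toG (n + 1) (sG n g) = toG n g := by
  have h := DirectLimit.mk_apply (F := fun n => (seq n).G) (f := fG) n (n + 1) g (Nat.le_succ n)
  rw [fG_succ n n le_rfl, fG_self] at h
  exact h

lemma toX_succ (n : ℕ) (x : (seq n).X) : toX (n + 1) (sX n x) = toX n x := by
  have h := DirectLimit.mk_apply (F := fun n => (seq n).X) (f := fX) n (n + 1) x (Nat.le_succ n)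
  rw [fX_succ n n le_rfl, fX_self] at h
  exact h

lemma toG_le (n m : ℕ) (h : n ≤ m) (g : (seq n).G) : toG m (fG n m h g) = toG n g :=
  DirectLimit.mk_apply (F := fun n => (seq n).G) (f := fG) n m g h

lemma toX_le (n m : ℕ) (h : n ≤ m) (x : (seq n).X) : toX m (fX n m h x) = toX n x :=
  DirectLimit.mk_apply (F := fun n => (seq n).X) (f := fX) n m x h

lemma toX_inj (n : ℕ) : Function.Injective (toX n) :=
  DirectLimit.mk_injective fX (fun i j h => (fX i j h).injective) n

lemma toG_mul (n : ℕ) (g h : (seq n).G) : toG n (g * h) = toG n g * toG n h :=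
  (DirectLimit.mul_def (G := fun n => (seq n).G) (f := fG) n g h).symm

lemma toG_one (n : ℕ) : toG n 1 = 1 :=
  (DirectLimit.one_def (G := fun n => (seq n).G) (f := fG) n).symm

/-- the stage maps as homomorphisms. -/
noncomputable def homG (n : ℕ) : (seq n).G →* GG where
  toFun := toG n
  map_one' := toG_one n
  map_mul' := toG_mul n

noncomputable instance : SMul GG XX :=
  ⟨DirectLimit.map₂ fG fX fX (fun _ g x => g • x) (fun i j h g x => f_smul i j h g x)⟩

lemma smul_mk (n : ℕ) (g : (seq n).G) (x : (seq n).X) : toG n g • toX n x = toX n (g • x) :=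
  DirectLimit.map₂_def fG fX fX (fun _ g x => g • x) (fun i j h g x => f_smul i j h g x) n g x

lemma exG (g : GG) : ∃ n, ∃ x : (seq n).G, g = toG n x := DirectLimit.exists_eq_mk fG g
lemma exX (g : XX) : ∃ n, ∃ x : (seq n).X, g = toX n x := DirectLimit.exists_eq_mk fX g

noncomputable instance : MulAction GG XX where
  one_smul x := by
    obtain ⟨n, x, rfl⟩ := exX x
    rw [← toG_one n, smul_mk, one_smul]
  mul_smul g h x := by
    obtain ⟨n, x, rfl⟩ := exX x
    obtain ⟨m, g, rfl⟩ := exG g
    obtain ⟨k, h, rfl⟩ := exG h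
    have h1 : n ≤ n + m + k := by omega
    have h2 : m ≤ n + m + k := by omega
    have h3 : k ≤ n + m + k := by omega
    rw [← toX_le n _ h1 x, ← toG_le m _ h2 g, ← toG_le k _ h3 h, ← toG_mul, smul_mk, smul_mk,
      smul_mk, mul_smul]

lemma two_trans : ∀ a b c d : XX, a ≠ b → c ≠ d → ∃ g : GG, g • a = c ∧ g • b = d := by
  intro a b c d hab hcd
  obtain ⟨n, a, rfl⟩ := exX a
  obtain ⟨m, b, rfl⟩ := exX b
  obtain ⟨k, c, rfl⟩ := exX c
  obtain ⟨l, d, rfl⟩ := exX d
  have h1 : n ≤ n + m + k + l := by omega
  have h2 : m ≤ n + m + k + l := by omega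
  have h3 : k ≤ n + m + k + l := by omega
  have h4 : l ≤ n + m + k + l := by omega
  rw [← toX_le n _ h1 a, ← toX_le m _ h2 b, ← toX_le k _ h3 c, ← toX_le l _ h4 d] at *
  have hab' := fun h => hab (congrArg (toX _) h)
  have hcd' := fun h => hcd (congrArg (toX _) h)
  obtain ⟨g, hg1, hg2⟩ := s_fuse _ _ _ _ _ hab' hcd'
  refine ⟨toG (n + m + k + l + 1) g, ?_, ?_⟩
  · rw [← toX_succ _ (fX n _ h1 a), ← toX_succ _ (fX k _ h3 c), smul_mk, hg1]
  · rw [← toX_succ _ (fX m _ h2 b), ← toX_succ _ (fX l _ h4 d), smul_mk, hg2]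

instance : Infinite XX := by
  have : Infinite (seq 1).X := by
    have h1 : Infinite (KK (ZZ → (seq 0).X)) := by
      infer_instance
    exact Infinite.of_injective (fun c : KK (ZZ → (seq 0).X) =>
      ((fun _ => c) : GA (seq 0).G → KK (ZZ → (seq 0).X))) (fun c d h => congrFun h 1)
  exact Infinite.of_injective (toX 1) (toX_inj 1)

instance : Infinite GG := by
  obtain ⟨x0⟩ : Nonempty XX := inferInstance
  obtain ⟨y0, hy0⟩ := exists_ne x0
  refine Infinite.of_surjective (fun g : GG => g • x0) ?_
  intro y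
  obtain ⟨z, hz⟩ := exists_ne y
  obtain ⟨g, hg, -⟩ := two_trans x0 y0 y z hy0.symm hz.symm
  exact ⟨g, hg⟩

instance : FaithfulSMul GG XX where
  eq_of_smul_eq_smul := by
    intro g h hgh
    obtain ⟨m, g, rfl⟩ := exG g
    obtain ⟨k, h, rfl⟩ := exG h
    have h2 : m ≤ m + k := by omega
    have h3 : k ≤ m + k := by omega
    rw [← toG_le m _ h2 g, ← toG_le k _ h3 h] at *
    congr 1
    apply FaithfulSMul.eq_of_smul_eq_smul (α := (seq (m + k)).X)
    intro x
    have h4 := hgh (toX _ x)
    rw [smul_mk, smul_mk] at h4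
    exact toX_inj _ h4

/-- every finite set of the limit group lies in the image of a stage. -/
lemma fin_stage (S : Finset GG) : ∃ n, ∀ g ∈ S, ∃ x, toG n x = g := by
  classical
  induction S using Finset.induction_on with
  | empty => exact ⟨0, by simp⟩
  | insert a S ha ih =>
    obtain ⟨n, hn⟩ := ih
    obtain ⟨m, a, rfl⟩ := exG a
    refine ⟨n + m, ?_⟩
    intro g hg
    rcases Finset.mem_insert.1 hg with rfl | hg
    · exact ⟨_, toG_le m (n + m) (by omega) a⟩
    · obtain ⟨x, rfl⟩ := hn g hg
      exact ⟨_, toG_le n (n + m) (by omega) x⟩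

lemma loc_solv (S : Finset GG) : Group.IsSolvable (Subgroup.closure (↑S : Set GG)) := by
  obtain ⟨n, hn⟩ := fin_stage S
  have h1 : Subgroup.closure (↑S : Set GG) ≤ (homG n).range := by
    rw [Subgroup.closure_le]
    intro g hg
    obtain ⟨x, hx⟩ := hn g hg
    exact ⟨x, hx⟩
  have h2 : Group.IsSolvable (homG n).range :=
    Group.isSolvable_of_surjective (homG n).rangeRestrict_surjective
  exact Group.isSolvable_of_isSolvable_injective (Subgroup.inclusion_injective h1)

/-! ### Finite-dimensional representations -/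

/-- commutators. -/
def cm {H : Type*} [Group H] (x y : H) : H := x * y * x⁻¹ * y⁻¹

lemma map_cm {H K : Type*} [Group H] [Group K] (f : H →* K) (x y : H) :
    f (cm x y) = cm (f x) (f y) := by
  unfold cm
  rw [map_mul, map_mul, map_mul, map_inv, map_inv]

section rep

lemma lin_indep {K R : Type*} [Field K] [Ring R] [Algebra K R] {k : ℕ} (A B : Fin k → R)
    (h : ∀ i j, i ≠ j → A i * B j = B j * A i) (h' : ∀ i, A i * B i ≠ B i * A i) :
    LinearIndependent K A := by
  classical
  rw [Fintype.linearIndependent_iff]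
  intro g hg i
  have h1 : (∑ j, g j • A j) * B i - B i * (∑ j, g j • A j) = 0 := by
    rw [hg, zero_mul, mul_zero, sub_zero]
  rw [Finset.sum_mul, Finset.mul_sum, ← Finset.sum_sub_distrib] at h1
  rw [Finset.sum_eq_single i] at h1
  · rw [smul_mul_assoc, mul_smul_comm, ← smul_sub] at h1
    rcases smul_eq_zero.1 h1 with h2 | h2
    · exact h2
    · exact absurd (sub_eq_zero.1 h2) (h' i)
  · intro j _ hj
    rw [smul_mul_assoc, mul_smul_comm, ← smul_sub, h j i hj, sub_self, smul_zero]
  · intro hi
    exact absurd (Finset.mem_univ i) hi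

variable {G : Type} [Group G]

/-- the shift. -/
def tau (m : ℤ) : GA G := ⟨1, Multiplicative.ofAdd m⟩

/-- the element `c` placed at the indices congruent to `r` modulo `k`. -/
noncomputable def part (k : ℕ) (r : ℤ) (c : G) : GA G :=
  base G ZZ (fun j => if (k : ℤ) ∣ Multiplicative.toAdd j - r then c else 1)

lemma part_mul (k : ℕ) (r : ℤ) (c d : G) : part k r (c * d) = part k r c * part k r d := by
  unfold part
  rw [← map_mul]
  congr 1
  funext j
  show _ = (if _ then c else 1) * (if _ then d else 1)
  split_ifs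
  · rfl
  · rw [one_mul]

lemma part_one (k : ℕ) (r : ℤ) : part k r (1 : G) = 1 := by
  unfold part
  rw [← map_one (base G ZZ)]
  congr 1
  funext j
  show (if _ then (1 : G) else 1) = 1
  split_ifs <;> rfl

/-- `part` as a homomorphism. -/
noncomputable def partHom (k : ℕ) (r : ℤ) : G →* GA G where
  toFun := part k r
  map_one' := part_one k r
  map_mul' := part_mul k r

lemma part_comm (k : ℕ) (r s : ℤ) (h : ¬ (k : ℤ) ∣ r - s) (c d : G) :
    part k r c * part k s d = part k s d * part k r c := by
  unfold part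
  rw [← map_mul, ← map_mul]
  congr 1
  funext j
  show (if _ then c else 1) * (if _ then d else 1) = (if _ then d else 1) * (if _ then c else 1)
  by_cases h1 : (k : ℤ) ∣ Multiplicative.toAdd j - r
  · by_cases h2 : (k : ℤ) ∣ Multiplicative.toAdd j - s
    · exfalso
      apply h
      have := dvd_sub h2 h1
      have e : Multiplicative.toAdd j - s - (Multiplicative.toAdd j - r) = r - s := by ring
      rwa [e] at this
    · simp [h1, h2]
  · by_cases h2 : (k : ℤ) ∣ Multiplicative.toAdd j - s
    · simp [h1, h2]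
    · simp [h1, h2]

lemma tau_conj (f : ZZ → G) (m : ℤ) :
    tau m * base G ZZ f = base G ZZ (fun j => f (Multiplicative.ofAdd (-m) * j)) * tau m := by
  apply RegularWreathProduct.ext
  · funext j
    show (1 : G) * f ((Multiplicative.ofAdd m)⁻¹ * j) =
      f (Multiplicative.ofAdd (-m) * j) * 1
    rw [one_mul, mul_one]
    rfl
  · show Multiplicative.ofAdd m * 1 = 1 * Multiplicative.ofAdd m
    rw [mul_one, one_mul]

lemma tau_part (k : ℕ) (r m : ℤ) (c : G) : tau m * part k r c = part k (r + m) c * tau m := by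
  unfold part
  rw [tau_conj]
  congr 2
  funext j
  have e : Multiplicative.toAdd (Multiplicative.ofAdd (-m) * j) - r =
      Multiplicative.toAdd j - (r + m) := by
    rw [toAdd_mul, toAdd_ofAdd]; ring
  rw [e]

/-- partial products. -/
noncomputable def EE (k m : ℕ) (c : G) : GA G :=
  base G ZZ (fun j => if Multiplicative.toAdd j % (k : ℤ) < m then c else 1)

lemma EE_zero (k : ℕ) (hk : 0 < k) (c : G) : EE k 0 c = 1 := by
  unfold EE
  rw [← map_one (base G ZZ)]
  congr 1
  funext j
  have : ¬ (Multiplicative.toAdd j % (k : ℤ) < ((0 : ℕ) : ℤ)) := by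
    have := Int.emod_nonneg (Multiplicative.toAdd j) (b := (k : ℤ)) (by omega)
    push_cast
    omega
  rw [if_neg this]
  rfl

lemma EE_succ (k m : ℕ) (hm : m < k) (c : G) : EE k (m + 1) c = EE k m c * part k m c := by
  unfold EE part
  rw [← map_mul]
  congr 1
  funext j
  show (if _ then c else 1) = (if _ then c else 1) * (if _ then c else 1)
  have h0 := Int.emod_nonneg (Multiplicative.toAdd j) (b := (k : ℤ)) (by omega)
  have h1 : (k : ℤ) ∣ Multiplicative.toAdd j - m ↔ Multiplicative.toAdd j % (k : ℤ) = m := by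
    have hmm : (m : ℤ) % (k : ℤ) = m := Int.emod_eq_of_lt (by omega) (by omega)
    constructor
    · intro h
      have h2 := Int.emod_eq_emod_iff_emod_sub_eq_zero.2 (Int.emod_eq_zero_of_dvd h)
      rw [h2, hmm]
    · intro h
      apply Int.dvd_of_emod_eq_zero
      apply Int.emod_eq_emod_iff_emod_sub_eq_zero.1
      rw [h, hmm]
  by_cases h2 : Multiplicative.toAdd j % (k : ℤ) < m
  · have h3 : Multiplicative.toAdd j % (k : ℤ) < ((m + 1 : ℕ) : ℤ) := by push_cast; omega
    have h4 : ¬ (k : ℤ) ∣ Multiplicative.toAdd j - m := by rw [h1]; omega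
    rw [if_pos h3, if_pos h2, if_neg h4, mul_one]
  · by_cases h3 : Multiplicative.toAdd j % (k : ℤ) = m
    · have h4 : Multiplicative.toAdd j % (k : ℤ) < ((m + 1 : ℕ) : ℤ) := by push_cast; omega
      rw [if_pos h4, if_neg h2, if_pos (h1.2 h3), one_mul]
    · have h4 : ¬ Multiplicative.toAdd j % (k : ℤ) < ((m + 1 : ℕ) : ℤ) := by push_cast; omega
      rw [if_neg h4, if_neg h2, if_neg (fun h => h3 (h1.1 h)), one_mul]

lemma EE_full (k : ℕ) (hk : 0 < k) (c : G) : EE k k c = diag G c := by
  unfold EE
  have : (fun j : ZZ => if Multiplicative.toAdd j % (k : ℤ) < (k : ℤ) then c else 1)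
      = fun _ => c := by
    funext j
    exact if_pos (Int.emod_lt_of_pos _ (by omega))
  rw [this]
  rfl

/-- Every finite-dimensional representation of the wreath product kills diagonal commutators. -/
theorem rep_diag {K V : Type} [Field K] [AddCommGroup V] [Module K V] [FiniteDimensional K V]
    (ρ : GA G →* (V →ₗ[K] V)) (a b : G) : ρ (diag G (cm a b)) = 1 := by
  classical
  set k : ℕ := Module.finrank K (V →ₗ[K] V) + 1 with hk
  have hk0 : 0 < k := Nat.succ_pos _
  -- some part has commuting images
  have hex : ∃ r : ℤ, ρ (part k r a) * ρ (part k r b) = ρ (part k r b) * ρ (part k r a) := by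
    by_contra hcon
    push Not at hcon
    have hli : LinearIndependent K (fun i : Fin k => ρ (part k (i : ℤ) a)) := by
      apply lin_indep _ (fun i : Fin k => ρ (part k (i : ℤ) b))
      · intro i j hij
        rw [← map_mul, ← map_mul, part_comm]
        intro hdvd
        apply hij
        apply Fin.ext
        have h1 := Int.emod_emod_of_dvd
        have h2 : ((i : ℕ) : ℤ) - (j : ℕ) = 0 := by
          apply Int.eq_zero_of_abs_lt_dvd hdvd
          have hi := i.2
          have hj := j.2
          rw [abs_lt]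
          constructor <;> omega
        omega
      · intro i
        exact hcon i
    have := hli.fintype_card_le_finrank
    rw [Fintype.card_fin] at this
    omega
  obtain ⟨r, hr⟩ := hex
  have hinv : ∀ x y : GA G, ρ x * ρ y = ρ y * ρ x → ρ (cm x y) = 1 := by
    intro x y hxy
    have h1 : x * y = (cm x y) * (y * x) := by rw [cm]; group
    have h2 : ρ (x * y) = ρ (cm x y) * ρ (y * x) := by rw [← map_mul, ← h1]
    have h3 : ρ (x * y) = ρ (y * x) := by rw [map_mul, map_mul, hxy]
    calc ρ (cm x y) = ρ (cm x y) * ρ (y * x) * ρ (y * x)⁻¹ := by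
          rw [mul_assoc, ← map_mul, mul_inv_cancel, map_one, mul_one]
      _ = ρ (y * x) * ρ (y * x)⁻¹ := by rw [← h2, h3]
      _ = 1 := by rw [← map_mul, mul_inv_cancel, map_one]
  have hpr : ρ (part k r (cm a b)) = 1 := by
    have h1 : part k r (cm a b) = cm (part k r a) (part k r b) :=
      map_cm (partHom k r) a b
    rw [h1]
    exact hinv _ _ hr
  have hps : ∀ s : ℤ, ρ (part k s (cm a b)) = 1 := by
    intro s
    have h1 := tau_part k r (s - r) (cm a b)
    have h2 : r + (s - r) = s := by ring
    rw [h2] at h1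
    have h3 : part k s (cm a b) = tau (s - r) * part k r (cm a b) * (tau (s - r))⁻¹ := by
      rw [h1, mul_inv_cancel_right]
    rw [h3, map_mul, map_mul, hpr, mul_one, ← map_mul, mul_inv_cancel, map_one]
  have hE : ∀ m : ℕ, m ≤ k → ρ (EE k m (cm a b)) = 1 := by
    intro m
    induction m with
    | zero => intro _; rw [EE_zero k hk0, map_one]
    | succ m ih =>
      intro hm
      rw [EE_succ k m (by omega), map_mul, ih (by omega), hps, mul_one]
  rw [← EE_full k hk0]
  exact hE k le_rfl

/-- every diagonal element is a commutator. -/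
lemma diag_comm (g : G) : ∃ x y : GA G, diag G g = (cm x y) := by
  refine ⟨base G ZZ (fun j => g ^ (Multiplicative.toAdd j)), tau 1, ?_⟩
  set f : ZZ → G := fun j => g ^ (Multiplicative.toAdd j) with hf
  have h1 := tau_conj f⁻¹ 1
  have h2 : cm (base G ZZ f) (tau 1) = base G ZZ f * (tau 1 * base G ZZ f⁻¹) * (tau 1)⁻¹ := by
    rw [cm, map_inv]; group
  rw [h2, h1, ← mul_assoc, mul_inv_cancel_right, ← map_mul]
  show base G ZZ (fun _ => g) = _
  congr 1
  funext j
  show g = f j * (f (Multiplicative.ofAdd (-1) * j))⁻¹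
  rw [hf]
  simp only [toAdd_mul, toAdd_ofAdd]
  rw [← zpow_neg, ← zpow_add]
  have : Multiplicative.toAdd j + -(-1 + Multiplicative.toAdd j) = 1 := by ring
  rw [this, zpow_one]

end rep

/-- every element of a stage becomes a commutator in the next stage. -/
lemma s_comm (n : ℕ) (g : (seq n).G) : ∃ x y : (seq (n + 1)).G, sG n g = cm x y := by
  obtain ⟨x, y, hxy⟩ := diag_comm g
  have h := map_cm (RegularWreathProduct.inl
      (D := Aff (KK (ZZ → (seq n).X))) (Q := GA (seq n).G)) x y
  rw [← hxy] at h
  exact ⟨_, _, h⟩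

/-- a representation of a stage kills the commutators coming from the previous stage. -/
lemma s_rep {K V : Type} [Field K] [AddCommGroup V] [Module K V] [FiniteDimensional K V]
    (n : ℕ) (ρ : (seq (n + 1)).G →* (V →ₗ[K] V)) (x y : (seq n).G) : ρ (sG n (cm x y)) = 1 :=
  rep_diag (G := (seq n).G) (ρ.comp (RegularWreathProduct.inl
      (D := Aff (KK (ZZ → (seq n).X))) (Q := GA (seq n).G))) x y

/-- Every finite-dimensional representation of the limit group is trivial. -/
theorem rep_trivial {K V : Type} [Field K] [AddCommGroup V] [Module K V] [FiniteDimensional K V]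
    (ρ : GG →* (V →ₗ[K] V)) (g : GG) : ρ g = 1 := by
  obtain ⟨n, g, rfl⟩ := exG g
  obtain ⟨x, y, hxy⟩ := s_comm n g
  have h1 := s_rep (n + 1) (ρ.comp (homG (n + 2))) x y
  have h2 : toG (n + 2) (sG (n + 1) (cm x y)) = toG n g := by
    rw [toG_succ, ← hxy, toG_succ]
  rw [← h2]
  exact h1

end Pool.Agent.Helper904.TwoTrans
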